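import Mathlib

namespace Pool.Agent.Results.MP_3f84da_ag.Yes

open MvPolynomial
open scoped Classical

variable {n : ℕ} (E : Fin n → Fin n → Prop)

/-- the underlying undirected graph -/
def U : SimpleGraph (Fin n) := SimpleGraph.fromRel E

/-- indices of the `σ_{ij}`, `i ≤ j` -/
abbrev Pr (n : ℕ) := {p : Fin n × Fin n // p.1 ≤ p.2}

/-- indices of the `a_i` and of the `λ_{kl}`, `k → l` an edge -/
abbrev Var := Fin n ⊕ {p : Fin n × Fin n // E p.1 p.2}

/-- simple treks: paths without repeated vertex and without collider -/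
def Trek (i j : Fin n) := {P : (U E).Path i j // ∀ k, k + 2 ≤ P.1.length →
  ¬(E (P.1.getVert k) (P.1.getVert (k + 1)) ∧ E (P.1.getVert (k + 2)) (P.1.getVert (k + 1)))}

noncomputable instance (i j : Fin n) : Fintype (Trek E i j) := by unfold Trek; infer_instance

variable {E}

def Trek.len {i j : Fin n} (P : Trek E i j) : ℕ := P.1.1.length

/-- the top vertex: labels increase along edges, so it is the least vertex on the trek -/
def Trek.top {i j : Fin n} (P : Trek E i j) : Fin n :=
  P.1.1.support.toFinset.min' ⟨i, by simp⟩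

/-- the variable `λ` of the edge joining `k` and `l` -/
noncomputable def lam (k l : Fin n) : MvPolynomial (Var E) ℂ :=
  if h : E k l then X (.inr ⟨(k, l), h⟩) else if h : E l k then X (.inr ⟨(l, k), h⟩) else 0

noncomputable def Trek.mon {i j : Fin n} (P : Trek E i j) : MvPolynomial (Var E) ℂ :=
  X (.inl P.top) * (P.1.1.darts.map fun d => lam d.fst d.snd).prod

def Trek.Shortest {i j : Fin n} (P : Trek E i j) : Prop := ∀ Q : Trek E i j, P.len ≤ Q.len

variable (E)

noncomputable def phi : MvPolynomial (Pr n) ℂ →ₐ[ℂ] MvPolynomial (Var E) ℂ :=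
  aeval fun p => ∑ P : Trek E p.1.1 p.1.2, P.mon

def PsiDefined : Prop :=
  ∀ i j : Fin n, i < j → Nonempty (Trek E i j) → ∃! P : Trek E i j, P.Shortest

noncomputable def psi : MvPolynomial (Pr n) ℂ →ₐ[ℂ] MvPolynomial (Var E) ℂ :=
  aeval fun p => if h : ∃ P : Trek E p.1.1 p.1.2, P.Shortest then h.choose.mon else 0

def Toric (I : Ideal (MvPolynomial (Pr n) ℂ)) : Prop :=
  ∃ (ι : Type) (θ : Pr n → MvPolynomial ι ℂ), (∀ p, θ p = 0 ∨ ∃ u, θ p = monomial u 1) ∧
    I = RingHom.ker (aeval θ : MvPolynomial (Pr n) ℂ →ₐ[ℂ] MvPolynomial ι ℂ)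

variable {E}

lemma aeval_mono {P ι : Type*} (θ : P → MvPolynomial ι ℂ) (α : P → ι →₀ ℕ) (u : P →₀ ℕ)
    (h : ∀ p ∈ u.support, θ p = monomial (α p) 1) :
    aeval θ (monomial u (1 : ℂ)) = monomial (u.sum fun p k => k • α p) 1 := by
  rw [aeval_monomial, map_one, one_mul, monomial_finsupp_sum_index, map_one, one_mul]
  exact Finset.prod_congr rfl fun p hp => by simp only [h p hp, monomial_pow, one_pow]

lemma aeval_zero_iff {P R : Type*} [CommRing R] [IsDomain R] [Algebra ℂ R] (θ : P → R)
    (u : P →₀ ℕ) : aeval θ (monomial u (1 : ℂ)) = 0 ↔ ∃ p ∈ u.support, θ p = 0 := by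
  rw [aeval_monomial, map_one, one_mul, Finsupp.prod, Finset.prod_eq_zero_iff]
  exact exists_congr fun p => and_congr_right fun hp =>
    pow_eq_zero_iff (Finsupp.mem_support_iff.1 hp)

lemma kerK {P ι R : Type*} [AddCommGroup R] [Module ℂ R] (θ : P → MvPolynomial ι ℂ)
    (h : ∀ p, θ p = 0 ∨ ∃ u, θ p = monomial u 1) (η : MvPolynomial P ℂ →ₗ[ℂ] R)
    (h0 : ∀ u, aeval θ (monomial u (1 : ℂ)) = 0 → η (monomial u 1) = 0)
    (h1 : ∀ u v, aeval θ (monomial u (1 : ℂ)) ≠ 0 →
      aeval θ (monomial u (1 : ℂ)) = aeval θ (monomial v (1 : ℂ)) →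
      η (monomial u 1) = η (monomial v 1)) (f : MvPolynomial P ℂ) (hf : aeval θ f = 0) :
    η f = 0 := by
  let L : MvPolynomial ι ℂ →ₗ[ℂ] R := (basisMonomials ι ℂ).constr ℂ fun w =>
    if h : ∃ u, aeval θ (monomial u (1 : ℂ)) = monomial w 1 then η (monomial h.choose 1) else 0
  have : η = L ∘ₗ (aeval θ).toLinearMap := by
    refine (basisMonomials P ℂ).ext fun u => ?_
    simp only [coe_basisMonomials, LinearMap.comp_apply, AlgHom.toLinearMap_apply]
    by_cases hu : aeval θ (monomial u (1 : ℂ)) = 0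
    · rw [hu, h0 u hu, map_zero]
    · have e := aeval_mono θ (fun p => if h : ∃ u, θ p = monomial u 1 then h.choose else 0) u
        fun p hp => by
          have := (h p).resolve_left fun h0 => hu ((aeval_zero_iff θ u).2 ⟨p, hp, h0⟩)
          rw [dif_pos this]; exact this.choose_spec
      generalize (u.sum fun p k => k • if h : ∃ u, θ p = monomial u 1 then h.choose else 0) = w at e
      have hw : ∃ u, aeval θ (monomial u (1 : ℂ)) = monomial w 1 := ⟨u, e⟩
      rw [e, show (monomial w 1 : MvPolynomial ι ℂ) = basisMonomials ι ℂ w by simp,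
        Module.Basis.constr_basis, dif_pos hw]
      exact h1 _ _ hu (e.trans hw.choose_spec.symm)
  rw [this, LinearMap.comp_apply, AlgHom.toLinearMap_apply, hf, map_zero]

noncomputable def sub : MvPolynomial (Var E) ℂ →ₐ[ℂ] Polynomial (MvPolynomial (Var E) ℂ) :=
  aeval fun x => Polynomial.monomial (x.elim (fun _ => 0) fun _ => 1) (X x)

lemma mon_spec {i j : Fin n} (P : Trek E i j) :
    (∃ u, P.mon = monomial u 1) ∧ sub P.mon = Polynomial.monomial P.len P.mon := by
  have : ∀ L : List (U E).Dart, (∃ u, (L.map fun d => lam (E := E) d.fst d.snd).prod =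
      monomial u 1) ∧ sub (L.map fun d => lam (E := E) d.fst d.snd).prod =
      Polynomial.monomial L.length (L.map fun d => lam (E := E) d.fst d.snd).prod := by
    intro L
    induction L with
    | nil => exact ⟨⟨0, rfl⟩, by simp⟩
    | cons d L ih =>
      obtain ⟨⟨u, hu⟩, ih⟩ := ih
      obtain ⟨x, hx⟩ : ∃ x, lam (E := E) d.fst d.snd = X (.inr x) := by
        unfold lam
        split_ifs with h1 h2
        · exact ⟨_, rfl⟩
        · exact ⟨_, rfl⟩
        · exact absurd ((SimpleGraph.fromRel_adj _ _ _).1 d.adj).2 (by tauto)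
      rw [List.map_cons, List.prod_cons, hx, map_mul, ih]
      refine ⟨⟨_, by rw [hu, X, monomial_mul, one_mul]⟩, ?_⟩
      simp [sub, Polynomial.monomial_mul_monomial, add_comm]
  obtain ⟨⟨u, hu⟩, h⟩ := this P.1.1.darts
  refine ⟨⟨_, by rw [Trek.mon, hu, X, monomial_mul, one_mul]⟩, ?_⟩
  rw [Trek.mon, map_mul, h]
  simp [sub, Polynomial.monomial_mul_monomial, Trek.len]

noncomputable def S (E : Fin n → Fin n → Prop) (p : Pr n) : MvPolynomial (Var E) ℂ :=
  ∑ P : Trek E p.1.1 p.1.2 with P.Shortest, P.mon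

lemma ev_S (p : Pr n) : eval (fun _ => 1) (S E p) =
    ((Finset.univ.filter fun P : Trek E p.1.1 p.1.2 => P.Shortest).card : ℂ) := by
  rw [S, map_sum, Finset.card_eq_sum_ones, Nat.cast_sum]
  refine Finset.sum_congr rfl fun P _ => ?_
  obtain ⟨u, hu⟩ := (mon_spec P).1
  simp [hu, eval_monomial]

lemma ex_short {i j : Fin n} (h : Nonempty (Trek E i j)) : ∃ P : Trek E i j, P.Shortest := by
  obtain ⟨P, -, hP⟩ := Finset.exists_min_image Finset.univ (Trek.len (E := E) (i := i) (j := j))
    Finset.univ_nonempty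
  exact ⟨P, fun Q => hP Q (Finset.mem_univ _)⟩

lemma S_ne (p : Pr n) (h : Nonempty (Trek E p.1.1 p.1.2)) : S E p ≠ 0 := fun h0 => by
  have := ev_S (E := E) p
  obtain ⟨P, hP⟩ := ex_short h
  rw [h0, map_zero, eq_comm, Nat.cast_eq_zero, Finset.card_eq_zero] at this
  exact Finset.ne_empty_of_mem (Finset.mem_filter.2 ⟨Finset.mem_univ P, hP⟩) this

lemma trail (p : Pr n) : (sub (phi E (X p))).trailingCoeff = S E p := by
  by_cases h : Nonempty (Trek E p.1.1 p.1.2)
  swap
  · rw [not_nonempty_iff] at h; simp [phi, S]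
  obtain ⟨P, hP⟩ := ex_short h
  have c : ∀ k, (sub (phi E (X p))).coeff k =
      ∑ Q : Trek E p.1.1 p.1.2 with Q.len = k, Q.mon := fun k => by
    simp only [phi, aeval_X, map_sum, (mon_spec _).2, Polynomial.finsetSum_coeff,
      Polynomial.coeff_monomial, Finset.sum_filter]
  have c1 : (sub (phi E (X p))).coeff P.len = S E p := by
    rw [c, S]
    exact Finset.sum_congr (Finset.filter_congr fun Q _ =>
      ⟨fun e R => e ▸ hP R, fun h => (h P).antisymm (hP Q)⟩) fun _ _ => rfl
  have c2 := S_ne p h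
  rw [Polynomial.trailingCoeff, ← c1]
  rw [← c1] at c2
  congr 1
  refine (Polynomial.natTrailingDegree_le_of_ne_zero c2).antisymm
    (Polynomial.le_natTrailingDegree (by rintro h; simp [h] at c2) fun m hm => ?_)
  rw [c]
  exact Finset.sum_eq_zero fun Q hQ => absurd (hP Q) (by rw [(Finset.mem_filter.1 hQ).2]; omega)

lemma trail' (u : Pr n →₀ ℕ) :
    (sub (phi E (monomial u 1))).trailingCoeff = aeval (S E) (monomial u (1 : ℂ)) := by
  let t : Polynomial (MvPolynomial (Var E) ℂ) →* MvPolynomial (Var E) ℂ :=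
    ⟨⟨Polynomial.trailingCoeff, by simp [Polynomial.trailingCoeff]⟩, Polynomial.trailingCoeff_mul⟩
  rw [show ∀ q, Polynomial.trailingCoeff q = t q from fun _ => rfl, monomial_eq, map_one, one_mul]
  simp only [Finsupp.prod, map_prod, map_pow, aeval_X]
  exact Finset.prod_congr rfl fun p _ => congrArg (· ^ _) (trail p)

def bs (hE : ∀ i j, E i j → i < j) : Var E → Pr n
  | .inl i => ⟨(i, i), le_rfl⟩
  | .inr e => ⟨e.1, (hE _ _ e.2).le⟩

noncomputable def be : Var E → Var E →₀ ℕ
  | .inl i => .single (.inl i) 1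
  | .inr e => .single (.inl e.1.1) 1 + .single (.inr e) 1

lemma uniq_diag (i : Fin n) (P : Trek E i i) : P = ⟨.nil, by simp⟩ :=
  Subtype.ext (SimpleGraph.Path.loop_eq _)

lemma S_eq {i j : Fin n} (h : i ≤ j) (P : Trek E i j) (hP : P.Shortest)
    (hu : ∀ Q : Trek E i j, Q.Shortest → Q = P) : S E ⟨(i, j), h⟩ = P.mon :=
  Finset.sum_eq_single_of_mem P (Finset.mem_filter.2 ⟨Finset.mem_univ _, hP⟩)
    fun Q hQ hn => absurd (hu Q (Finset.mem_filter.1 hQ).2) hn

lemma S_bs (hE : ∀ i j, E i j → i < j) (x : Var E) : S E (bs hE x) = monomial (be x) 1 := by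
  cases x with
  | inl i =>
    let P : Trek E i i := ⟨.nil, by simp⟩
    refine (S_eq le_rfl P (fun Q => Nat.zero_le _) fun Q _ => uniq_diag i Q).trans ?_
    have : P.top = i := le_antisymm (Finset.min'_le _ _ (by simp)) (Finset.le_min' _ _ _ (by
      simp [P]))
    rw [Trek.mon, this]
    simp [P, be, X]
  | inr e =>
    obtain ⟨⟨k, l⟩, h⟩ := e
    have hl := hE _ _ h
    have ad : (U E).Adj k l := (SimpleGraph.fromRel_adj _ _ _).2 ⟨hl.ne, Or.inl h⟩
    let P : Trek E k l := ⟨SimpleGraph.Path.singleton ad, fun m hm => by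
      simp [SimpleGraph.Path.singleton] at hm⟩
    refine (S_eq hl.le P (fun Q =>
      Nat.pos_of_ne_zero fun h => hl.ne (SimpleGraph.Walk.eq_of_length_eq_zero h))
      fun Q hQ => Subtype.ext (Subtype.ext (SimpleGraph.Walk.eq_of_length_le_one
        (hQ P) le_rfl))).trans ?_
    have : P.top = k := le_antisymm (Finset.min'_le _ _ (by simp)) (Finset.le_min' _ _ _ (by
      simp [P, SimpleGraph.Path.singleton, hl.le]))
    have h' : E k l := h
    rw [Trek.mon, this]
    simp [P, SimpleGraph.Path.singleton, lam, h', be, X]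

/-- the linear map with prescribed values on the vectors `be x` -/
noncomputable def La {G : Type*} [AddCommGroup G] (w : Var E → G) : (Var E →₀ ℕ) →+ G :=
  Finsupp.liftAddHom fun x => multiplesHom G
    (x.elim (fun i => w (.inl i)) fun e => w (.inr e) - w (.inl e.1.1))

lemma La_be {G : Type*} [AddCommGroup G] (w : Var E → G) (x : Var E) : La w (be x) = w x := by
  cases x <;> simp [La, be]

lemma psi_S (h : PsiDefined E) (p : Pr n) : psi E (X p) = S E p ∧
    (Nonempty (Trek E p.1.1 p.1.2) → ∃ u, S E p = monomial u 1) := by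
  have e : ∀ P : Trek E p.1.1 p.1.2, P.Shortest → S E p = P.mon := fun P hP => by
    refine Finset.sum_eq_single_of_mem P (Finset.mem_filter.2 ⟨Finset.mem_univ _, hP⟩)
      fun Q hQ hn => absurd ?_ hn
    obtain ⟨⟨i, j⟩, hij⟩ := p
    rcases hij.eq_or_lt with hij | hij
    · obtain rfl : i = j := hij
      exact (uniq_diag i Q).trans (uniq_diag i P).symm
    · exact (h i j hij ⟨P⟩).unique (Finset.mem_filter.1 hQ).2 hP
  refine ⟨?_, fun hn => ?_⟩
  · rw [psi, aeval_X]
    split_ifs with h1
    · exact (e _ h1.choose_spec).symm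
    · exact (Finset.sum_eq_zero fun Q hQ => absurd ⟨Q, (Finset.mem_filter.1 hQ).2⟩ h1).symm
  · obtain ⟨P, hP⟩ := ex_short hn
    rw [e P hP]; exact (mon_spec P).1

theorem result {n : ℕ} (E : Fin n → Fin n → Prop) (hE : ∀ i j, E i j → i < j) :
    Toric (RingHom.ker (phi E)) ↔
      PsiDefined E ∧ RingHom.ker (phi E) = RingHom.ker (psi E) := by
  refine ⟨fun ⟨ι, θ, hθ, hI⟩ => ?_, fun ⟨_, h⟩ => ⟨Var E, _, fun p => ?_, h⟩⟩
  swap
  · split_ifs
    · exact Or.inr (mon_spec _).1
    · exact Or.inl rfl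
  have hk : ∀ f, phi E f = 0 ↔ aeval θ f = 0 := fun f => by
    rw [← RingHom.mem_ker, hI, RingHom.mem_ker]
  have hS : ∀ u v, aeval θ (monomial u (1 : ℂ)) = aeval θ (monomial v (1 : ℂ)) →
      aeval (S E) (monomial u (1 : ℂ)) = aeval (S E) (monomial v (1 : ℂ)) := fun u v h => by
    have := (hk (monomial u 1 - monomial v 1)).2 (by rw [map_sub, h, sub_self])
    rw [map_sub, sub_eq_zero] at this
    rw [← trail', ← trail', this]
  have hz : ∀ p, θ p = 0 ↔ S E p = 0 := fun p => by
    rw [← aeval_X (R := ℂ) θ p, ← hk]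
    refine ⟨fun h => by rw [← trail, h]; simp, fun h => ?_⟩
    have : IsEmpty (Trek E p.1.1 p.1.2) := not_nonempty_iff.1 fun hn => S_ne p hn h
    simp [phi]
  have hθ' : ∀ p, ∃ u, S E p ≠ 0 → θ p = monomial u 1 := fun p => by
    rcases hθ p with h | ⟨u, h⟩
    · exact ⟨0, fun h' => absurd ((hz p).1 h) h'⟩
    · exact ⟨u, fun _ => h⟩
  choose α hα using hθ'
  have hb : ∀ x, S E (bs hE x) ≠ 0 := fun x => by simp [S_bs]
  have rel : ∀ p, S E p ≠ 0 → ∃ (k : ℕ) (u v : Var E →₀ ℕ), k ≠ 0 ∧
      S E p ^ k * monomial (u.sum fun x m => m • be x) 1 = monomial (v.sum fun x m => m • be x) 1 ∧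
      k • α p + (u.sum fun x m => m • α (bs hE x)) = v.sum fun x m => m • α (bs hE x) := by
    intro p hp
    let b' : Option (Var E) → Pr n := fun o => o.elim p (bs hE)
    have hb' : ∀ o, S E (b' o) ≠ 0 := fun o => by cases o; exacts [hp, hb _]
    have ren : ∀ {R : Type} [CommRing R] [Algebra ℂ R] (g : Pr n → R) (u : Option (Var E) →₀ ℕ),
        aeval (g ∘ b') (monomial u (1 : ℂ)) = aeval g (monomial (u.mapDomain b') (1 : ℂ)) :=
      fun g u => by rw [← rename_monomial, aeval_rename]
    have spl : ∀ {R : Type} [CommRing R] [Algebra ℂ R] (g : Pr n → R) (u : Option (Var E) →₀ ℕ),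
        aeval (g ∘ b') (monomial u (1 : ℂ)) =
          g p ^ u none * aeval (g ∘ bs hE) (monomial u.some (1 : ℂ)) := fun g u => by
      simp only [aeval_monomial, map_one, one_mul]
      rw [Finsupp.prod_option_index _ _ (by simp) (by intros; rw [pow_add])]; rfl
    obtain ⟨u, v, huv, e⟩ : ∃ u v : Option (Var E) →₀ ℕ, u ≠ v ∧
        aeval (θ ∘ b') (monomial u (1 : ℂ)) = aeval (θ ∘ b') (monomial v (1 : ℂ)) := by
      by_contra hc
      push Not at hc
      have ai : AlgebraicIndependent ℂ fun o => phi E (X (b' o)) := by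
        refine algebraicIndependent_iff.2 fun f hf => kerK (θ ∘ b') (fun o => hθ _) .id
          (fun u hu => ?_) (fun u v _ h => ?_) f ?_
        · obtain ⟨o, -, ho⟩ := (aeval_zero_iff _ u).1 hu
          exact absurd ((hz _).1 ho) (hb' o)
        · by_contra hn
          exact hc u v (fun e => hn (by rw [e])) h
        · rw [← aeval_rename, ← hk, ← hf, rename_eq_aeval, comp_aeval_apply]; rfl
      have := ai.cardinalMk_le_trdeg
      rw [MvPolynomial.trdeg_of_isDomain] at this
      simp only [Cardinal.mk_fintype, Fintype.card_option, Cardinal.lift_natCast,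
        Nat.cast_le] at this
      omega
    wlog hle : v none ≤ u none generalizing u v
    · exact this v u huv.symm e.symm (le_of_not_ge hle)
    have e1 := hS _ _ ((ren θ u).symm.trans (e.trans (ren θ v)))
    rw [← ren, ← ren, spl, spl, aeval_mono (S E ∘ bs hE) be _ fun x _ => S_bs hE x,
      aeval_mono (S E ∘ bs hE) be _ fun x _ => S_bs hE x] at e1
    rw [spl, spl, aeval_mono (θ ∘ bs hE) (fun x => α (bs hE x)) _ fun x _ => hα _ (hb x),
      aeval_mono (θ ∘ bs hE) (fun x => α (bs hE x)) _ fun x _ => hα _ (hb x), hα p hp, monomial_pow,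
      monomial_pow, monomial_mul, monomial_mul] at e
    obtain ⟨k, hk⟩ := Nat.exists_eq_add_of_le hle
    rw [hk, pow_add, mul_assoc] at e1
    have e2 := mul_left_cancel₀ (pow_ne_zero _ hp) e1
    have e3 := monomial_left_injective one_ne_zero (by simpa only [one_pow, mul_one] using e)
    rw [hk, add_smul, add_assoc] at e3
    refine ⟨k, u.some, v.some, ?_, e2, add_left_cancel e3⟩
    rintro rfl
    rw [pow_zero, one_mul] at e2
    have e4 := congrArg (La fun x => Finsupp.single x (1 : ℤ))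
      (monomial_left_injective one_ne_zero e2)
    simp only [Finsupp.sum, map_sum, map_nsmul, La_be] at e4
    refine huv (Finsupp.ext fun o => ?_)
    cases o with
    | none => exact hk
    | some x =>
      have c : ∀ w : Var E →₀ ℕ, (∑ y ∈ w.support, w y • Finsupp.single y (1 : ℤ)) x = w x :=
        fun w => by
          rw [Finsupp.finsetSum_apply, Finset.sum_eq_single x (fun y _ h => by simp [h.symm])
            (fun h => by simp at h; simp [h])]; simp
      have := DFunLike.congr_fun e4 x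
      rw [c, c] at this
      exact_mod_cast this
  have hpsi : PsiDefined E := fun i j hij hn => by
    obtain ⟨k, u, v, hk, e, -⟩ := rel ⟨(i, j), hij.le⟩ (S_ne _ hn)
    have := congrArg (eval fun _ => (1 : ℂ)) e
    simp only [map_mul, map_pow, ev_S, eval_monomial, one_pow, Finsupp.prod_fun_one,
      mul_one] at this
    obtain ⟨P, hP⟩ := Finset.card_eq_one.1
      ((Nat.pow_eq_one.1 (by exact_mod_cast this)).resolve_right hk)
    have h1 := fun Q => Finset.ext_iff.1 hP Q
    simp only [Finset.mem_filter, Finset.mem_univ, true_and, Finset.mem_singleton] at h1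
    exact ⟨P, (h1 P).2 rfl, fun Q => (h1 Q).1⟩
  have hps : psi E = aeval (S E) := algHom_ext fun p => by rw [(psi_S hpsi p).1, aeval_X]
  have hβ : ∀ p, ∃ u, S E p ≠ 0 → S E p = monomial u 1 := fun p => by
    by_cases hn : Nonempty (Trek E p.1.1 p.1.2)
    · exact ((psi_S hpsi p).2 hn).imp fun _ h _ => h
    · rw [not_nonempty_iff] at hn; exact ⟨0, fun h => absurd (by simp [S]) h⟩
  choose β hβ using hβ
  refine ⟨hpsi, Ideal.ext fun f => ?_⟩
  rw [RingHom.mem_ker, RingHom.mem_ker, hk, hps]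
  refine ⟨kerK θ hθ (aeval (S E)).toLinearMap (fun u hu => ?_) (fun u v _ h => hS u v h) f,
    kerK (S E) (fun p => (eq_or_ne _ _).imp_right fun h => ⟨_, hβ p h⟩) (aeval θ).toLinearMap
      (fun u hu => ?_) (fun u v h0 h => ?_) f⟩
  · exact (aeval_zero_iff _ u).2 (((aeval_zero_iff _ u).1 hu).imp fun p h => ⟨h.1, (hz p).1 h.2⟩)
  · exact (aeval_zero_iff _ u).2 (((aeval_zero_iff _ u).1 hu).imp fun p h => ⟨h.1, (hz p).2 h.2⟩)
  · let c : (ι →₀ ℕ) →+ ι →₀ ℤ := Finsupp.mapRange.addMonoidHom (Nat.castAddMonoidHom ℤ)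
    have hc : Function.Injective c := Finsupp.mapRange_injective _ (map_zero _) Nat.cast_injective
    have hL : ∀ p, S E p ≠ 0 → La (fun x => c (α (bs hE x))) (β p) = c (α p) := fun p hp => by
      obtain ⟨k, u, v, hk, e, e'⟩ := rel p hp
      rw [hβ p hp, monomial_pow, monomial_mul] at e
      have e1 := congrArg (La fun x => c (α (bs hE x)))
        (monomial_left_injective one_ne_zero (by simpa only [one_pow, mul_one] using e))
      have e2 := congrArg c e'
      simp only [Finsupp.sum, map_sum, map_nsmul, La_be, map_add] at e1 e2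
      exact nsmul_right_injective hk (add_right_cancel (e1.trans e2.symm))
    have hu : ∀ p ∈ u.support, S E p ≠ 0 := fun p hp e => h0 ((aeval_zero_iff _ u).2 ⟨p, hp, e⟩)
    have hv : ∀ p ∈ v.support, S E p ≠ 0 := fun p hp e =>
      h0 (h.trans ((aeval_zero_iff _ v).2 ⟨p, hp, e⟩))
    rw [aeval_mono _ β u fun p hp => hβ p (hu p hp), aeval_mono _ β v fun p hp => hβ p (hv p hp)] at h
    have e1 := congrArg (La fun x => c (α (bs hE x))) (monomial_left_injective one_ne_zero h)
    show aeval θ _ = aeval θ _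
    rw [aeval_mono _ α u fun p hp => hα p (hu p hp), aeval_mono _ α v fun p hp => hα p (hv p hp)]
    congr 2
    refine hc ?_
    simp only [Finsupp.sum, map_sum, map_nsmul] at e1 ⊢
    exact (Finset.sum_congr rfl fun p hp => by rw [hL p (hu p hp)]).trans
      (e1.trans (Finset.sum_congr rfl fun p hp => by rw [hL p (hv p hp)]))

end Pool.Agent.Results.MP_3f84da_ag.Yes
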